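import Mathlib
import Pool.Agent.H110K2.P_final
import Pool.Agent.H110K2.P_insep_iff
import Pool.Agent.H110K2.P_quot_borel

set_option autoImplicit false

open MeasureTheory Set

namespace Pool.Agent.Results.MP_2b824f_an.KakutaniBorel

/-- The first return time `n_A(x) = min {n ≥ 1 : T^n x ∈ A}` (`0` if `x` never returns to `A`,
which for ergodic `T` and `μ A > 0` happens only on a null set). -/
noncomputable def retTime {X : Type*} (T : X → X) (A : Set X) (x : X) : ℕ :=
  sInf {n | 1 ≤ n ∧ T^[n] x ∈ A}

/-- The induced transformation `T_A x = T^{n_A(x)} x`. -/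
noncomputable def induced {X : Type*} (T : X → X) (A : Set X) (x : X) : X :=
  T^[retTime T A x] x

/-- Kakutani equivalence: there are measurable sets `A`, `B` of positive measure and an
isomorphism `φ` (with inverse `ψ`, both defined up to null sets) of `(A, μ(· | A), T_A)` with
`(B, μ(· | B), S_B)`. -/
def KakutaniEquiv {X : Type*} [MeasurableSpace X] (μ : Measure X) (T S : X → X) : Prop :=
  ∃ A B : Set X, MeasurableSet A ∧ MeasurableSet B ∧ μ A ≠ 0 ∧ μ B ≠ 0 ∧
    ∃ φ ψ : X → X, Measurable φ ∧ Measurable ψ ∧
      (∀ᵐ x ∂(μ.restrict A), φ x ∈ B ∧ ψ (φ x) = x ∧ φ (induced T A x) = induced S B (φ x)) ∧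
      (∀ᵐ y ∂(μ.restrict B), ψ y ∈ A ∧ φ (ψ y) = y) ∧
      ∀ E, MeasurableSet E → μ (A ∩ φ ⁻¹' E) / μ A = μ (B ∩ E) / μ B

/-- The ergodic measure preserving automorphisms of `(X, μ)` (not yet modulo null sets). -/
def ErgAut {X : Type*} [MeasurableSpace X] (μ : Measure X) : Type _ :=
  {S : X ≃ᵐ X // Ergodic S μ}

/-- The weak topology on `ErgAut μ`: the coarsest topology for which `S ↦ μ (S⁻¹ E ∩ F)` is
continuous for all measurable sets `E`, `F`. -/
instance {X : Type*} [MeasurableSpace X] (μ : Measure X) : TopologicalSpace (ErgAut μ) :=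
  TopologicalSpace.induced
    (fun S (EF : {E : Set X // MeasurableSet E} × {E : Set X // MeasurableSet E}) =>
      μ ((S.1 ⁻¹' EF.1.1) ∩ EF.2.1)) inferInstance

/-- The space `𝓔` of ergodic transformations modulo null sets with the weak topology: the `T₀`
quotient of `ErgAut μ`.  The first part of `result` says that two transformations are identified
if and only if they are almost everywhere equal. -/
abbrev ErgClass {X : Type*} [MeasurableSpace X] (μ : Measure X) : Type _ :=
  SeparationQuotient (ErgAut μ)

/-- **Kakutani equivalence classes are Borel.**  Let `(X, μ)` be a standard non-atomic probability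
space.  For every ergodic automorphism `T` the Kakutani class of `T` is a Borel subset of the
space `𝓔` of ergodic automorphisms modulo null sets with the weak topology (and the set of all
Borel automorphisms in it is a Borel set before passing to the quotient). -/
theorem result {X : Type*} [MeasurableSpace X] [StandardBorelSpace X] (μ : Measure X)
    [IsProbabilityMeasure μ] [NullSingletonClass μ] :
    (∀ S S' : ErgAut μ, (SeparationQuotient.mk S : ErgClass μ) = SeparationQuotient.mk S' ↔
      ∀ᵐ x ∂μ, S.1 x = S'.1 x) ∧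
    ∀ T : ErgAut μ,
      MeasurableSet[borel (ErgClass μ)]
        {s : ErgClass μ | ∃ S : ErgAut μ, SeparationQuotient.mk S = s ∧
          KakutaniEquiv μ T.1 S.1} ∧
      MeasurableSet[borel (ErgAut μ)] {S : ErgAut μ | KakutaniEquiv μ T.1 S.1} := by
  refine ⟨fun S S' => ?_, fun T => ?_⟩
  · rw [SeparationQuotient.mk_eq_mk]
    exact Pool.H110K2.insep_iff μ S S'
  · have h : MeasurableSet[borel (ErgAut μ)] {S : ErgAut μ | KakutaniEquiv μ T.1 S.1} :=
      Pool.H110K2.final μ T
    refine ⟨?_, h⟩
    have h2 := Pool.H110K2.quot_borel _ h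
    convert h2 using 1
    ext s
    constructor
    · rintro ⟨S, hS, hK⟩
      exact ⟨S, hK, hS⟩
    · rintro ⟨S, hK, hS⟩
      exact ⟨S, hS, hK⟩

end Pool.Agent.Results.MP_2b824f_an.KakutaniBorel
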